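import Pool.Agent.Y673.LG.Fl

/-!
# MP_3ddf05_nt: few curves are not separated from a given curve by a very small prime

For every `α > 1`, `ε > 0` and `κ` there is `C` such that for all `X ≥ 1`, all integers `A ≠ 0`,
`A'`, `B'` of absolute value at most `X ^ κ` with `4A'³ + 27B'² ≠ 0`: of the integers `B` with
`|B| ≤ X` at most `C X ^ (1/2 + 1/(2α) + ε)` are such that no prime `p ≤ (log X) ^ α` of good reduction
for `E : y² = x³ + Ax + B` and `E' : y² = x³ + A'x + B'` separates the two curves, that is, satisfies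
`#E(𝔽_p) ≠ #E'(𝔽_p)`.

Proof.  Let `p ≥ 11` be a prime which does not divide `A (4A'³ + 27B'²)`.  The number of points of
`E : y² = x³ + Ax + B` over `𝔽_p` is odd if and only if `x³ + Ax + B` has no root in `𝔽_p`.  The number
of the pairs `x ≠ x'` with the same value of `x³ + Ax` is the number of points of a conic, so both
parities occur, with nonzero discriminant, for at least `p / 12` of the classes of `B` modulo `p`.  So
the integers `B` in question avoid at least `p / 12` classes modulo each of these primes `p`; there are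
at least `(log X) ^ (α - ε')` such primes `p ≤ (log X) ^ α`.  The bound follows from the large sieve for
the fractions whose denominators are the products of `k ≈ log X / (2 α log log X)` of these primes, one
from each of `k` disjoint sets of primes.
-/

set_option autoImplicit false

namespace Pool.Agent.Results.MP_3ddf05_nt.FewUnseparatedCurves

/-- The number of points over the field with `p` elements of the projective curve
`y² = x³ + Ax + B`. -/
noncomputable def points (p : ℕ) (A B : ℤ) : ℕ :=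
  1 + Nat.card {P : ZMod p × ZMod p // P.2 ^ 2 = P.1 ^ 3 + (A : ZMod p) * P.1 + (B : ZMod p)}

/-- The prime `p ≥ 5` does not divide the discriminant `-16 (4A³ + 27B²)` of `y² = x³ + Ax + B`; then
the curve has good reduction at `p`. -/
def Good (p : ℕ) (A B : ℤ) : Prop := 5 ≤ p ∧ ¬ (p : ℤ) ∣ 4 * A ^ 3 + 27 * B ^ 2

/-- Some prime `p ≤ Y` of good reduction for both curves separates `y² = x³ + Ax + B` and
`y² = x³ + A'x + B'`: the numbers of points over the field with `p` elements are different. -/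
def Separated (Y : ℝ) (A B A' B' : ℤ) : Prop :=
  ∃ p : ℕ, p.Prime ∧ (p : ℝ) ≤ Y ∧ Good p A B ∧ Good p A' B' ∧ points p A B ≠ points p A' B'

/-- The integers `B` with `|B| ≤ X` such that `y² = x³ + Ax + B` is an elliptic curve which is not
separated from `y² = x³ + A'x + B'` by a prime `p ≤ (log X) ^ α`. -/
def Unseparated (α X : ℝ) (A A' B' : ℤ) : Set ℤ :=
  {B | |(B : ℝ)| ≤ X ∧ 4 * A ^ 3 + 27 * B ^ 2 ≠ 0 ∧ ¬ Separated (Real.log X ^ α) A B A' B'}

/-- **Few unseparated curves.**  For every `α > 1`, `ε > 0` and `κ` there is `C` such that for all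
`X ≥ 1` and all integers `A ≠ 0`, `A'`, `B'` of absolute value at most `X ^ κ`, `4A'³ + 27B'² ≠ 0`, at
most `C X ^ (1/2 + 1/(2α) + ε)` of the integers `B` with `|B| ≤ X` are such that
`y² = x³ + Ax + B` and `y² = x³ + A'x + B'` are not separated by a prime `p ≤ (log X) ^ α`. -/
theorem result (α : ℝ) (hα : 1 < α) (ε : ℝ) (hε : 0 < ε) (κ : ℕ) :
    ∃ C : ℝ, ∀ X : ℝ, 1 ≤ X → ∀ A A' B' : ℤ, A ≠ 0 → 4 * A' ^ 3 + 27 * B' ^ 2 ≠ 0 →
      |(A : ℝ)| ≤ X ^ κ → |(A' : ℝ)| ≤ X ^ κ → |(B' : ℝ)| ≤ X ^ κ →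
        (Unseparated α X A A' B').Finite ∧
          ((Unseparated α X A A' B').ncard : ℝ) ≤ C * X ^ (1 / 2 + 1 / (2 * α) + ε) := by
  obtain ⟨C, hC⟩ := Pool.Agent.Y673.LG.few_unsep hα hε κ
  refine ⟨C, fun X hX A A' B' hA hD h1 h2 h3 => ?_⟩
  have key : ∀ S : Finset ℤ, (∀ B ∈ S, B ∈ Unseparated α X A A' B') →
      (S.card : ℝ) ≤ C * X ^ (1 / 2 + 1 / (2 * α) + ε) := by
    intro S hS
    apply hC X hX A A' B' hA h1 h2 h3 hD S
    intro B hB
    obtain ⟨h4, -, h5⟩ := hS B hB
    refine ⟨h4, ?_⟩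
    rintro ⟨p, hp, hp5, hpY, hg, hg', hne⟩
    exact h5 ⟨p, hp, hpY, ⟨hp5, hg⟩, ⟨hp5, hg'⟩, hne⟩
  have hfin : (Unseparated α X A A' B').Finite := by
    by_contra hinf
    obtain ⟨n, hn⟩ := exists_nat_gt (C * X ^ (1 / 2 + 1 / (2 * α) + ε))
    obtain ⟨t, ht, hc⟩ := Set.Infinite.exists_subset_card_eq hinf n
    have h4 := key t (fun x hx => ht hx)
    rw [hc] at h4
    linarith
  refine ⟨hfin, ?_⟩
  have h4 := key hfin.toFinset (fun x hx => hfin.mem_toFinset.1 hx)
  rwa [← Set.ncard_eq_toFinset_card _ hfin] at h4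

end Pool.Agent.Results.MP_3ddf05_nt.FewUnseparatedCurves
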